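import Pool.Agent.H2.KL.Stm2

set_option autoImplicit false

open Finset Module

namespace H54.KR

open H2.KL

/-- counting with a homomorphism that maps `A` into `R` -/
theorem card_step {M k : Type} [AddCommGroup M] [AddCommGroup k] [Finite M] [Finite k]
    (A : AddSubgroup M) (f : M →+ k) (R : AddSubgroup k) (h : ∀ x ∈ A, f x ∈ R) :
    Nat.card A ≤ Nat.card R * Nat.card (A ⊓ f.ker : AddSubgroup M) := by
  let g : A →+ k := f.comp A.subtype
  have h1 := AddSubgroup.card_eq_card_quotient_mul_card_addSubgroup g.ker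
  have h2 : Nat.card (A ⧸ g.ker) = Nat.card g.range :=
    Nat.card_congr (QuotientAddGroup.quotientKerEquivRange g).toEquiv
  have h3 : g.range ≤ R := by
    rintro _ ⟨x, rfl⟩
    exact h x x.2
  have h4 : Nat.card g.range ≤ Nat.card R := Nat.card_le_card_of_injective
    (fun x : g.range => (⟨x.1, h3 x.2⟩ : R)) (fun x y hxy => by
      simp only [Subtype.mk.injEq] at hxy
      exact Subtype.ext hxy)
  have h5 : Nat.card g.ker = Nat.card (A ⊓ f.ker : AddSubgroup M) := by
    refine Nat.card_congr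
      { toFun := fun x => ⟨(x : A), ⟨x.1.2, x.2⟩⟩
        invFun := fun x => ⟨⟨x, x.2.1⟩, x.2.2⟩
        left_inv := fun x => rfl
        right_inv := fun x => rfl }
  rw [h1, h2, h5]
  exact Nat.mul_le_mul_right _ h4

/-- Vandermonde -/
theorem vander {p N : ℕ} (hp : p.Prime) {k : Type} [AddCommGroup k]
    (hk : ∀ x : k, (p ^ N) • x = 0) (S : Finset ℕ)
    (hS : ∀ s ∈ S, ∀ t ∈ S, s ≠ t → ¬ s ≡ t [MOD p]) (y : ℕ → k)
    (hy : ∀ i < S.card, ∑ s ∈ S, s ^ i • y s = 0) : ∀ t ∈ S, y t = 0 := by
  intro t ht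
  let P : Polynomial ℤ := ∏ s ∈ S.erase t, (Polynomial.X - Polynomial.C (s : ℤ))
  have hdeg : P.natDegree < S.card := by
    have h1 : P.natDegree = (S.erase t).card :=
      Polynomial.natDegree_finsetProd_X_sub_C_eq_card (S.erase t) (fun s : ℕ => (s : ℤ))
    rw [h1, Finset.card_erase_of_mem ht]
    have : 0 < S.card := Finset.card_pos.2 ⟨t, ht⟩
    omega
  have h2 : ∑ s ∈ S, P.eval (s : ℤ) • y s = 0 := by
    have h3 : ∀ s ∈ S, P.eval (s : ℤ) • y s =
        ∑ i ∈ Finset.range S.card, P.coeff i • ((s ^ i : ℕ) • y s) := by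
      intro s _
      rw [Polynomial.eval_eq_sum_range' hdeg, Finset.sum_smul]
      refine Finset.sum_congr rfl (fun i _ => ?_)
      rw [mul_smul]
      congr 1
      rw [← Nat.cast_pow, natCast_zsmul]
    rw [Finset.sum_congr rfl h3, Finset.sum_comm]
    refine Finset.sum_eq_zero (fun i hi => ?_)
    rw [← Finset.smul_sum, hy i (Finset.mem_range.1 hi), smul_zero]
  have h4 : P.eval (t : ℤ) • y t = 0 := by
    rw [← h2, ← Finset.sum_erase_add S _ ht]
    rw [Finset.sum_eq_zero (s := S.erase t), zero_add]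
    intro s hs
    have : P.eval (s : ℤ) = 0 := by
      simp only [P, Polynomial.eval_prod]
      exact Finset.prod_eq_zero hs (by simp)
    rw [this, zero_smul]
  have h5 : IsCoprime (P.eval (t : ℤ)) ((p : ℤ) ^ N) := by
    apply IsCoprime.pow_right
    simp only [P, Polynomial.eval_prod]
    apply IsCoprime.prod_left
    intro s hs
    rw [Finset.mem_erase] at hs
    simp only [Polynomial.eval_sub, Polynomial.eval_X, Polynomial.eval_C]
    rw [isCoprime_comm, Prime.coprime_iff_not_dvd (Nat.prime_iff_prime_int.1 hp)]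
    intro hd
    apply hS s hs.2 t ht hs.1
    exact (Nat.modEq_iff_dvd.2 hd)
  obtain ⟨a, b, hab⟩ := h5
  calc y t = (1 : ℤ) • y t := (one_smul _ _).symm
    _ = (a * P.eval (t : ℤ) + b * (p : ℤ) ^ N) • y t := by rw [hab]
    _ = a • (P.eval (t : ℤ) • y t) + b • ((p ^ N : ℕ) • y t) := by
        rw [add_smul, mul_smul, mul_smul]
        congr 2
        rw [← Nat.cast_pow, natCast_zsmul]
    _ = 0 := by rw [h4, hk, smul_zero, smul_zero, add_zero]

theorem t_MOM : S_MOM := by
  intro p N hpf k W _ _ _ _ hk B0 B1 S hne hS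
  have hp : p.Prime := hpf.out
  classical
  -- the moments
  let mom : ℕ → ((S → k) →+ k) := fun i =>
    { toFun := fun y => ∑ s : S, ((s : ℕ) ^ i) • y s
      map_zero' := by simp
      map_add' := by
        intro y z
        simp only [Pi.add_apply, smul_add]
        rw [Finset.sum_add_distrib] }
  have hmom : ∀ i y, mom i y = ∑ s : S, ((s : ℕ) ^ i) • y s := fun i y => rfl
  let F0 : AddSubgroup (S → k) :=
    { carrier := {y | ∀ s : S, (B0 + (s : ℕ) • B1) (y s) = 0}
      add_mem' := by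
        intro y z hy hz s
        rw [Pi.add_apply, map_add, hy s, hz s, add_zero]
      zero_mem' := by
        intro s
        rw [Pi.zero_apply, map_zero]
      neg_mem' := by
        intro y hy s
        rw [Pi.neg_apply, map_neg, hy s, neg_zero] }
  have hF0 : ∀ y, y ∈ F0 ↔ ∀ s : S, (B0 + (s : ℕ) • B1) (y s) = 0 := fun y => Iff.rfl
  obtain ⟨F, hF_zero, hF_succ⟩ : ∃ F : ℕ → AddSubgroup (S → k), F 0 = F0 ∧
      ∀ j, F (j + 1) = F j ⊓ (mom j).ker :=
    ⟨fun j => Nat.rec F0 (fun j A => A ⊓ (mom j).ker) j, rfl, fun j => rfl⟩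
  have hF_mem : ∀ j y, y ∈ F j → y ∈ F0 ∧ ∀ i < j, mom i y = 0 := by
    intro j
    induction j with
    | zero => intro y hy; rw [hF_zero] at hy; exact ⟨hy, fun i hi => absurd hi (Nat.not_lt_zero i)⟩
    | succ j ih =>
      intro y hy
      rw [hF_succ, AddSubgroup.mem_inf] at hy
      obtain ⟨h1, h2⟩ := ih y hy.1
      refine ⟨h1, fun i hi => ?_⟩
      rcases Nat.lt_succ_iff_lt_or_eq.1 hi with h | h
      · exact h2 i h
      · rw [h]; exact hy.2
  have hrel : ∀ i y, y ∈ F0 → B1 (mom (i + 1) y) = - B0 (mom i y) := by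
    intro i y hy
    rw [hmom, hmom, map_sum, map_sum, ← Finset.sum_neg_distrib]
    refine Finset.sum_congr rfl (fun s _ => ?_)
    have h1 := (hF0 y).1 hy s
    rw [AddMonoidHom.add_apply, AddMonoidHom.smul_apply] at h1
    rw [map_nsmul, map_nsmul, eq_neg_of_add_eq_zero_left h1, smul_neg, neg_neg, smul_smul, pow_succ]
  have hstep0 : Nat.card (F 0) ≤ Nat.card k * Nat.card (F (0 + 1)) := by
    have := card_step (F 0) (mom 0) ⊤ (fun _ _ => AddSubgroup.mem_top _)
    rwa [AddSubgroup.card_top, ← hF_succ] at this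
  have hstep : ∀ j, 1 ≤ j → Nat.card (F j) ≤ Nat.card B1.ker * Nat.card (F (j + 1)) := by
    intro j hj
    rw [hF_succ]
    refine card_step (F j) (mom j) B1.ker (fun y hy => ?_)
    obtain ⟨i, rfl⟩ : ∃ i, j = i + 1 := ⟨j - 1, by omega⟩
    obtain ⟨h1, h2⟩ := hF_mem _ y hy
    rw [AddMonoidHom.mem_ker, hrel i y h1, h2 i (by omega), map_zero, neg_zero]
  have hall : ∀ j, Nat.card (F 0) ≤ Nat.card k * Nat.card B1.ker ^ j * Nat.card (F (j + 1)) := by
    intro j
    induction j with
    | zero => rw [pow_zero, mul_one]; exact hstep0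
    | succ j ih =>
      calc Nat.card (F 0) ≤ Nat.card k * Nat.card B1.ker ^ j * Nat.card (F (j + 1)) := ih
        _ ≤ Nat.card k * Nat.card B1.ker ^ j * (Nat.card B1.ker * Nat.card (F (j + 1 + 1))) :=
            Nat.mul_le_mul_left _ (hstep (j + 1) (by omega))
        _ = _ := by rw [pow_succ]; ring
  have hlast : Nat.card (F S.card) = 1 := by
    rw [Nat.card_eq_one_iff_unique]
    refine ⟨⟨fun a b => ?_⟩, ⟨0⟩⟩
    have hz : ∀ c : F S.card, c = 0 := by
      intro c
      obtain ⟨_, h2⟩ := hF_mem _ _ c.2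
      have h3 := vander hp hk S hS (fun s => if h : s ∈ S then (c : S → k) ⟨s, h⟩ else 0) (by
        intro i hi
        have h4 := h2 i hi
        rw [hmom] at h4
        rw [← Finset.sum_coe_sort, ← h4]
        refine Finset.sum_congr rfl (fun s _ => ?_)
        simp)
      ext s
      have h5 := h3 s s.2
      simpa using h5
    rw [hz a, hz b]
  have hcard0 : Nat.card (F 0) = ∏ s ∈ S, Nat.card (B0 + s • B1).ker := by
    rw [hF_zero]
    rw [← Finset.prod_coe_sort S (fun s => Nat.card (B0 + s • B1).ker)]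
    rw [← Nat.card_pi]
    refine Nat.card_congr
      { toFun := fun y s => ⟨(y : S → k) s, y.2 s⟩
        invFun := fun z => ⟨fun s => z s, fun s => (z s).2⟩
        left_inv := fun y => rfl
        right_inv := fun z => rfl }
  have hpos : 0 < S.card := Finset.card_pos.2 hne
  have := hall (S.card - 1)
  rw [hcard0, show S.card - 1 + 1 = S.card by omega, hlast, mul_one] at this
  exact this

end H54.KR
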