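import Pool.Agent.H2.KL.Stm2
import Pool.Agent.H68.KL.REP

set_option autoImplicit false

open Finset Module

namespace H54.KR

open H2.KL H68.KL

theorem t_REP3 (hPOL : S_POL) (hSPAN : S_SPAN) (hEXI : S_EXI) : S_REP3 := by
  intro p N hp G _ _ K k _ _ L hk φ
  have : NeZero (p ^ N) := ⟨pow_ne_zero _ hp.out.ne_zero⟩
  have hcardk : 0 < Nat.card k := Nat.card_pos
  obtain ⟨h, hpol, -⟩ := hPOL p N k hk L.nil ⊥
    (fun x y hy => by
      rw [AddSubgroup.mem_bot] at hy
      rw [hy, lie_zero]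
      exact zero_mem _)
    (fun x hx y _ => by
      rw [AddSubgroup.mem_bot] at hx
      rw [hx, zero_lie]) φ
  set H := L.grp h hpol.sub with hH
  have hinj : Function.Injective K.subtype := K.subtype_injective
  obtain ⟨V, iV1, iV2, iV3, ρ, w, hirr, hw0, hw⟩ := hEXI G (H.map K.subtype)
    ((linChar L φ h hpol.sub hpol.iso).comp
      (H.equivMapOfInjective K.subtype hinj).symm.toMonoidHom)
  have hwe : ∀ x ∈ h, ρ ((L.e x : K) : G) w = (ZMod.stdAddChar (N := p ^ N) (φ x) : ℂ) • w := by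
    intro x hx
    have hxH : L.e x ∈ H := by rw [hH, L.e_mem_grp]; exact hx
    have h1 := hw ((H.equivMapOfInjective K.subtype hinj) ⟨L.e x, hxH⟩)
    have h2 : (((H.equivMapOfInjective K.subtype hinj) ⟨L.e x, hxH⟩ : H.map K.subtype) : G)
        = ((L.e x : K) : G) := rfl
    rw [h2] at h1
    rw [h1, MonoidHom.comp_apply, MulEquiv.coe_toMonoidHom, MulEquiv.symm_apply_apply,
      linChar_apply]
    simp only [Equiv.symm_apply_apply]
  have h1 := hSPAN (p ^ N) K k L hk φ h hpol V (ρ.comp K.subtype) w hw0 (fun x hx => hwe x hx)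
  have h3 : finrank ℂ (Submodule.span ℂ (Set.range fun g : K => ρ g w)) * Nat.card h
      = Nat.card k := h1
  refine ⟨V, iV1, iV2, iV3, ρ, hirr, ?_⟩
  have h4 := arith2 (d := finrank ℂ V) (h := Nat.card h) (i := 1) hcardk (by
    rw [one_mul]
    calc Nat.card k
        = finrank ℂ (Submodule.span ℂ (Set.range fun g : K => ρ g w)) * Nat.card h := h3.symm
      _ ≤ finrank ℂ V * Nat.card h := Nat.mul_le_mul_right _ (Submodule.finrank_le _)) hpol.card
  rwa [one_pow, one_mul] at h4

end H54.KR
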