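import Pool.Agent.H2.KL.Stm

set_option autoImplicit false

open Finset Module

namespace H2.KL

namespace TRACE_aux

/-- the character `x ↦ stdAddChar (-(ψ x))` -/
noncomputable def ch {k : Type} [AddCommGroup k] {q : ℕ} [NeZero q] (ψ : k →+ ZMod q) (x : k) : ℂ :=
  ZMod.stdAddChar (N := q) (-(ψ x))

section
variable {k : Type} [AddCommGroup k] {q : ℕ} [NeZero q]

theorem ch_add_left (ψ f : k →+ ZMod q) (x : k) : ch (ψ + f) x = ch ψ x * ch f x := by
  unfold ch
  rw [AddMonoidHom.add_apply, neg_add, AddChar.map_add_eq_mul]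

theorem ch_add_right (ψ : k →+ ZMod q) (x y : k) : ch ψ (x + y) = ch ψ x * ch ψ y := by
  unfold ch
  rw [map_add, neg_add, AddChar.map_add_eq_mul]

theorem ch_zero (ψ : k →+ ZMod q) : ch ψ 0 = 1 := by
  unfold ch
  rw [map_zero, neg_zero, AddChar.map_zero_eq_one]

theorem ch_ne_one {f : k →+ ZMod q} {x : k} (h : f x ≠ 0) : ch f x ≠ 1 := by
  unfold ch
  intro h1
  have h2 : (ZMod.stdAddChar (N := q) (-(f x)) : ℂ) = ZMod.stdAddChar (N := q) 0 := by
    rw [h1, AddChar.map_zero_eq_one]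
  have h3 := ZMod.injective_stdAddChar h2
  rw [neg_eq_zero] at h3
  exact h h3

theorem ch_congr {ψ ψ' : k →+ ZMod q} {x y : k} (h : ψ x = ψ' y) : ch ψ x = ch ψ' y := by
  unfold ch
  rw [h]

/-- orthogonality: the sum over the functionals that agree with `ψ` on `h` -/
theorem sum_ch [Finite k] [Fintype (k →+ ZMod q)] [DecidableEq (k →+ ZMod q)] (hD : S_DUAL)
    (hq : ∀ x : k, q • x = 0) (ψ : k →+ ZMod q) (h : AddSubgroup k)
    [DecidablePred fun ψ' : k →+ ZMod q => ∀ x ∈ h, ψ' x = ψ x] (x : k) (hx : x ∉ h) :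
    ∑ ψ' ∈ (Finset.univ.filter fun ψ' : k →+ ZMod q => ∀ x ∈ h, ψ' x = ψ x), ch ψ' x = 0 := by
  -- a functional vanishing on `h` and not at `x`
  have h2 : ∀ x : k ⧸ h, q • x = 0 := by
    intro x
    induction x using QuotientAddGroup.induction_on with
    | H x => rw [← QuotientAddGroup.mk_nsmul, hq x, QuotientAddGroup.mk_zero]
  obtain ⟨g, hg⟩ := (hD q (k ⧸ h) h2).2.1 (x : k ⧸ h) (by
    rw [Ne, QuotientAddGroup.eq_zero_iff]; exact hx)
  let f : k →+ ZMod q := g.comp (QuotientAddGroup.mk' h)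
  have hf : f x ≠ 0 := hg
  have hf0 : ∀ y ∈ h, f y = 0 := by
    intro y hy
    change g (y : k ⧸ h) = 0
    rw [(QuotientAddGroup.eq_zero_iff y).2 hy, map_zero]
  set X := (Finset.univ.filter fun ψ' : k →+ ZMod q => ∀ x ∈ h, ψ' x = ψ x) with hX
  have h3 : ∑ ψ' ∈ X, ch ψ' x = ∑ ψ' ∈ X, ch (ψ' + f) x := by
    symm
    refine Finset.sum_bij (fun ψ' _ => ψ' + f) ?_ ?_ ?_ ?_
    · intro a ha
      rw [hX, Finset.mem_filter] at ha ⊢
      refine ⟨Finset.mem_univ _, fun y hy => ?_⟩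
      rw [AddMonoidHom.add_apply, ha.2 y hy, hf0 y hy, add_zero]
    · intro a _ b _ hab
      exact add_right_cancel hab
    · intro b hb
      refine ⟨b - f, ?_, by abel⟩
      rw [hX, Finset.mem_filter] at hb ⊢
      refine ⟨Finset.mem_univ _, fun y hy => ?_⟩
      rw [AddMonoidHom.sub_apply, hb.2 y hy, hf0 y hy, sub_zero]
    · intro a _
      rfl
  have h4 : ∑ ψ' ∈ X, ch (ψ' + f) x = (∑ ψ' ∈ X, ch ψ' x) * ch f x := by
    rw [Finset.sum_mul]
    exact Finset.sum_congr rfl (fun a _ => ch_add_left a f x)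
  rw [h4] at h3
  have h5 : (∑ ψ' ∈ X, ch ψ' x) * (1 - ch f x) = 0 := by
    rw [mul_sub, mul_one, ← h3, sub_self]
  rcases mul_eq_zero.1 h5 with h6 | h6
  · exact h6
  · exact absurd (sub_eq_zero.1 h6).symm (ch_ne_one hf)

end

end TRACE_aux

open TRACE_aux

theorem t_TRACE (hD : S_DUAL) (hO : S_ORB) : S_TRACE := by
  classical
  intro q _ K _ _ k _ _ L hq V _ _ _ _ ρ
  have : Fintype k := Fintype.ofFinite k
  have : Finite (k →+ ZMod q) := Finite.of_injective (fun f : k →+ ZMod q => (f : k → ZMod q))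
    DFunLike.coe_injective
  have : Fintype (k →+ ZMod q) := Fintype.ofFinite _
  let T : (k →+ ZMod q) → (V →ₗ[ℂ] V) := fun ψ => ∑ x : k, ch ψ x • ρ (L.e x)
  have hsum0 : ∀ (ψ : k →+ ZMod q) (h : AddSubgroup k),
      ∑ ψ' ∈ (Finset.univ.filter fun ψ' : k →+ ZMod q => ∀ x ∈ h, ψ' x = ψ x), T ψ' =
      ((Finset.univ.filter fun ψ' : k →+ ZMod q => ∀ x ∈ h, ψ' x = ψ x).card : ℂ) •
        ∑ x ∈ (Finset.univ.filter fun x : k => x ∈ h), ch ψ x • ρ (L.e x) := by
    intro ψ h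
    simp only [T]
    rw [Finset.sum_comm]
    rw [Finset.sum_filter (fun x : k => x ∈ h), Finset.smul_sum]
    refine Finset.sum_congr rfl (fun x _ => ?_)
    rw [← Finset.sum_smul]
    by_cases hx : x ∈ h
    · rw [if_pos hx, smul_smul]
      congr 1
      rw [Finset.sum_congr rfl (g := fun _ => ch ψ x), Finset.sum_const, nsmul_eq_mul]
      intro ψ' hψ'
      rw [Finset.mem_filter] at hψ'
      exact ch_congr (hψ'.2 x hx)
    · rw [if_neg hx, smul_zero, sum_ch hD hq ψ h x hx, zero_smul]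
  -- some `T ψ` has non-zero trace
  have hex : ∃ ψ, LinearMap.trace ℂ V (T ψ) ≠ 0 := by
    by_contra hcon
    push Not at hcon
    have h1 := hsum0 0 ⊥
    have h2 : (Finset.univ.filter fun ψ' : k →+ ZMod q =>
        ∀ x ∈ (⊥ : AddSubgroup k), ψ' x = (0 : k →+ ZMod q) x) = Finset.univ := by
      rw [Finset.filter_eq_self]
      intro ψ' _ x hx
      rw [AddSubgroup.mem_bot] at hx
      rw [hx, map_zero, map_zero]
    have h3 : (Finset.univ.filter fun x : k => x ∈ (⊥ : AddSubgroup k)) = {0} := by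
      ext x
      simp
    rw [h2, h3, Finset.sum_singleton, ch_zero, one_smul, L.e_zero, map_one] at h1
    have h4 := congrArg (LinearMap.trace ℂ V) h1
    rw [map_sum, Finset.sum_eq_zero (fun ψ _ => hcon ψ), map_smul, LinearMap.trace_one,
      smul_eq_mul] at h4
    have h5 : (0 : ℕ) < (Finset.univ : Finset (k →+ ZMod q)).card :=
      Finset.card_pos.2 ⟨0, Finset.mem_univ _⟩
    have h6 : (0 : ℕ) < finrank ℂ V := finrank_pos
    rcases mul_eq_zero.1 h4.symm with h | h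
    · rw [Nat.cast_eq_zero] at h; omega
    · rw [Nat.cast_eq_zero] at h; omega
  obtain ⟨ψ, hψ⟩ := hex
  refine ⟨ψ, fun h hh => ?_⟩
  -- conjugates have the same trace
  have hconj : ∀ ψ' : k →+ ZMod q, (∀ x ∈ h, ψ' x = ψ x) →
      LinearMap.trace ℂ V (T ψ') = LinearMap.trace ℂ V (T ψ) := by
    intro ψ' hψ'
    obtain ⟨x, hx, hxy⟩ := hO q K k L hq ψ h hh ψ' hψ'
    have h1 : T ψ' = ρ (L.e x)⁻¹ * (T ψ * ρ (L.e x)) := by
      simp only [T]
      rw [Finset.sum_mul, Finset.mul_sum]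
      refine Finset.sum_bij (fun y _ => L.Ad (L.e x) y) (fun _ _ => Finset.mem_univ _) ?_ ?_ ?_
      · intro a _ b _ hab
        rw [← L.Ad_inv_Ad (L.e x) a, hab, L.Ad_inv_Ad]
      · intro b _
        exact ⟨L.Ad (L.e x)⁻¹ b, Finset.mem_univ _, L.Ad_Ad_inv _ _⟩
      · intro y _
        rw [smul_mul_assoc, mul_smul_comm, ← map_mul, ← map_mul, L.e_Ad]
        congr 1
        · exact ch_congr (hxy y)
        · congr 1
          group
    rw [h1, LinearMap.trace_mul_comm, mul_assoc, ← map_mul, mul_inv_cancel, map_one, mul_one]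
  have hE : LinearMap.trace ℂ V
      (∑ x ∈ (Finset.univ.filter fun x : k => x ∈ h), ch ψ x • ρ (L.e x)) ≠ 0 := by
    intro h0
    have h1 := congrArg (LinearMap.trace ℂ V) (hsum0 ψ h)
    rw [map_smul, h0, smul_zero, map_sum] at h1
    rw [Finset.sum_congr rfl (g := fun _ => LinearMap.trace ℂ V (T ψ)) (fun ψ' hψ' =>
      hconj ψ' (Finset.mem_filter.1 hψ').2), Finset.sum_const, nsmul_eq_mul] at h1
    rcases mul_eq_zero.1 h1 with h2 | h2
    · rw [Nat.cast_eq_zero, Finset.card_eq_zero] at h2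
      have : ψ ∈ (Finset.univ.filter fun ψ' : k →+ ZMod q => ∀ x ∈ h, ψ' x = ψ x) := by
        rw [Finset.mem_filter]
        exact ⟨Finset.mem_univ _, fun _ _ => rfl⟩
      rw [h2] at this
      simp at this
    · exact hψ h2
  set E : V →ₗ[ℂ] V := ∑ x ∈ (Finset.univ.filter fun x : k => x ∈ h), ch ψ x • ρ (L.e x) with hEdef
  have hE0 : E ≠ 0 := by
    intro h0
    rw [h0, map_zero] at hE
    exact hE rfl
  obtain ⟨v, hv⟩ : ∃ v, E v ≠ 0 := by
    by_contra hcon
    push Not at hcon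
    exact hE0 (LinearMap.ext hcon)
  refine ⟨E v, hv, ?_⟩
  intro y hy
  have hmul : ρ (L.e y) * E = (ZMod.stdAddChar (N := q) (ψ y) : ℂ) • E := by
    rw [hEdef, Finset.mul_sum, Finset.smul_sum]
    refine Finset.sum_bij (fun x _ => L.e.symm (L.e y * L.e x)) ?_ ?_ ?_ ?_
    · intro x hx
      rw [Finset.mem_filter] at hx ⊢
      exact ⟨Finset.mem_univ _, L.log_mul_mem hh.sub hy hx.2⟩
    · intro a _ b _ hab
      have h1 := L.e.symm.injective hab
      have h2 := mul_left_cancel h1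
      exact L.e.injective h2
    · intro b hb
      rw [Finset.mem_filter] at hb
      refine ⟨L.e.symm (L.e (-y) * L.e b), ?_, ?_⟩
      · rw [Finset.mem_filter]
        exact ⟨Finset.mem_univ _, L.log_mul_mem hh.sub (neg_mem hy) hb.2⟩
      · rw [Equiv.apply_symm_apply, L.e_neg, mul_inv_cancel_left, Equiv.symm_apply_apply]
    · intro x hx
      rw [Finset.mem_filter] at hx
      rw [mul_smul_comm, ← map_mul, smul_smul, Equiv.apply_symm_apply]
      congr 1
      have h1 := map_der hh.iso (L.mul h hh.sub y hy x hx.2)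
      rw [map_sub, map_sub, sub_sub, sub_eq_zero] at h1
      unfold ch
      rw [h1, ← AddChar.map_add_eq_mul]
      congr 1
      abel
  have := congrArg (fun A : V →ₗ[ℂ] V => A v) hmul
  exact this

end H2.KL
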