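import Pool.Agent.H2.KL.Stm

set_option autoImplicit false

open Finset Module

namespace H2.KL

namespace VST_aux

/-- functionals vanishing on a subgroup -/
theorem card_vanish (hD : S_DUAL) (q : ℕ) [NeZero q] (B : Type) [AddCommGroup B] [Finite B]
    (hq : ∀ x : B, q • x = 0) (C : AddSubgroup B) :
    Nat.card {f : B →+ ZMod q // ∀ x ∈ C, f x = 0} * Nat.card C = Nat.card B := by
  have h1 : Nat.card {f : B →+ ZMod q // ∀ x ∈ C, f x = 0} = Nat.card (B ⧸ C →+ ZMod q) := by
    refine Nat.card_congr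
      { toFun := fun f => QuotientAddGroup.lift C f.1 (fun x hx => f.2 x hx)
        invFun := fun g => ⟨g.comp (QuotientAddGroup.mk' C), fun x hx => by
          simp only [AddMonoidHom.comp_apply, QuotientAddGroup.mk'_apply]
          rw [(QuotientAddGroup.eq_zero_iff x).2 hx, map_zero]⟩
        left_inv := ?_
        right_inv := ?_ }
    · intro f
      ext x
      rfl
    · intro g
      ext x
      rfl
  have h2 : ∀ x : B ⧸ C, q • x = 0 := by
    intro x
    induction x using QuotientAddGroup.induction_on with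
    | H x =>
      rw [← QuotientAddGroup.mk_nsmul, hq x, QuotientAddGroup.mk_zero]
  have h3 := (hD q (B ⧸ C) h2).1
  rw [h1, h3]
  have := AddSubgroup.card_eq_card_quotient_mul_card_addSubgroup C
  rw [this]

variable {k : Type} [LieRing k]

/-- the elements of `A` orthogonal to `B` -/
def ann {q : ℕ} (φ : k →+ ZMod q) (A B : AddSubgroup k) : AddSubgroup k where
  carrier := {x | x ∈ A ∧ ∀ y ∈ B, φ ⁅x, y⁆ = 0}
  add_mem' := by
    rintro x y ⟨hx, hx'⟩ ⟨hy, hy'⟩
    exact ⟨add_mem hx hy, fun w hw => by rw [add_lie, map_add, hx' w hw, hy' w hw, add_zero]⟩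
  zero_mem' := ⟨zero_mem _, fun w _ => by simp⟩
  neg_mem' := by
    rintro x ⟨hx, hx'⟩
    exact ⟨neg_mem hx, fun w hw => by rw [neg_lie, map_neg, hx' w hw, neg_zero]⟩

theorem mem_ann {q : ℕ} {φ : k →+ ZMod q} {A B : AddSubgroup k} {x : k} :
    x ∈ ann φ A B ↔ x ∈ A ∧ ∀ y ∈ B, φ ⁅x, y⁆ = 0 := Iff.rfl

theorem count (hD : S_DUAL) (q : ℕ) [NeZero q] [Finite k]
    (hq : ∀ x : k, q • x = 0) (φ : k →+ ZMod q) (A B C : AddSubgroup k) (hCB : C ≤ B)
    (hAC : ∀ x ∈ A, ∀ c ∈ C, φ ⁅x, c⁆ = 0) :
    Nat.card A * Nat.card C ≤ Nat.card (ann φ A B) * Nat.card B := by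
  classical
  -- the map `A → Hom(B, ZMod q)`
  let Ψ : A →+ (B →+ ZMod q) :=
    { toFun := fun x =>
        { toFun := fun y => φ ⁅(x : k), (y : k)⁆
          map_zero' := by simp
          map_add' := by intro a b; simp [lie_add] }
      map_zero' := by ext y; simp
      map_add' := by intro a b; ext y; simp [add_lie] }
  have hΨ : ∀ x y, Ψ x y = φ ⁅(x : k), (y : k)⁆ := fun x y => rfl
  have hker : Nat.card Ψ.ker = Nat.card (ann φ A B) := by
    refine Nat.card_congr
      { toFun := fun x => ⟨(x : A), ⟨x.1.2, fun y hy => ?_⟩⟩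
        invFun := fun x => ⟨⟨x, x.2.1⟩, ?_⟩
        left_inv := fun x => by ext; rfl
        right_inv := fun x => by ext; rfl }
    · have := x.2
      rw [AddMonoidHom.mem_ker] at this
      have h2 := DFunLike.congr_fun this (⟨y, hy⟩ : B)
      rw [hΨ] at h2
      exact h2
    · rw [AddMonoidHom.mem_ker]
      ext y
      rw [hΨ]
      exact x.2.2 _ y.2
  have hcount : Nat.card A = Nat.card Ψ.range * Nat.card Ψ.ker := by
    have h1 := AddSubgroup.card_eq_card_quotient_mul_card_addSubgroup Ψ.ker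
    rw [h1]
    congr 1
    exact Nat.card_congr (QuotientAddGroup.quotientKerEquivRange Ψ).toEquiv
  have : Finite (B →+ ZMod q) := by
    have : Function.Injective (fun f : B →+ ZMod q => (f : B → ZMod q)) := DFunLike.coe_injective
    exact Finite.of_injective _ this
  have hrange : Nat.card Ψ.range ≤
      Nat.card {f : B →+ ZMod q // ∀ x ∈ C.addSubgroupOf B, f x = 0} := by
    refine Nat.card_le_card_of_injective
      (fun f : Ψ.range => (⟨f.1, ?_⟩ : {f : B →+ ZMod q // ∀ x ∈ C.addSubgroupOf B, f x = 0})) ?_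
    · intro x hx
      obtain ⟨a, ha⟩ := f.2
      rw [← ha, hΨ]
      exact hAC _ a.2 _ (AddSubgroup.mem_addSubgroupOf.1 hx)
    · intro f g hfg
      simp only [Subtype.mk.injEq] at hfg
      exact Subtype.ext hfg
  have hv := card_vanish hD q B (fun x => by ext; simpa using hq x) (C.addSubgroupOf B)
  have hCc : Nat.card (C.addSubgroupOf B) = Nat.card C :=
    Nat.card_congr (AddSubgroup.addSubgroupOfEquivOfLe hCB).toEquiv
  rw [hCc] at hv
  rw [hcount, hker]
  calc Nat.card Ψ.range * Nat.card (ann φ A B) * Nat.card C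
      ≤ Nat.card {f : B →+ ZMod q // ∀ x ∈ C.addSubgroupOf B, f x = 0} *
        Nat.card (ann φ A B) * Nat.card C := by gcongr
    _ = Nat.card (ann φ A B) *
        (Nat.card {f : B →+ ZMod q // ∀ x ∈ C.addSubgroupOf B, f x = 0} * Nat.card C) := by ring
    _ = _ := by rw [hv]

theorem card_mul_relIndex {G : Type} [AddGroup G] {H K : AddSubgroup G} (h : H ≤ K) :
    Nat.card H * H.relIndex K = Nat.card K := by
  rw [← AddSubgroup.relIndex_bot_left H, ← AddSubgroup.relIndex_bot_left K]
  exact AddSubgroup.relIndex_mul_relIndex _ _ _ bot_le h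

/-- between a subgroup of prime index and the group there is nothing -/
theorem prime_step {p : ℕ} (hp : p.Prime) {m m' S : AddSubgroup k} (h1 : m ≤ S) (h2 : S ≤ m')
    (hidx : m.relIndex m' = p) (hne : ∃ x ∈ S, x ∉ m) : S = m' := by
  have h3 := AddSubgroup.relIndex_mul_relIndex m S m' h1 h2
  rw [hidx] at h3
  have h4 : m.relIndex S ≠ 1 := by
    intro h
    rw [AddSubgroup.relIndex_eq_one] at h
    obtain ⟨x, hx, hx'⟩ := hne
    exact hx' (h hx)
  have h5 : S.relIndex m' = 1 := by
    rcases (Nat.dvd_prime hp).1 (Dvd.intro _ h3) with h | h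
    · exact absurd h h4
    · have : 0 < p := hp.pos
      rw [h] at h3
      exact Nat.eq_of_mul_eq_mul_left this (by rw [h3, mul_one])
  rw [AddSubgroup.relIndex_eq_one] at h5
  exact le_antisymm h2 h5

/-- the elements of `B` orthogonal to `x` -/
def orth {q : ℕ} (φ : k →+ ZMod q) (x : k) (B : AddSubgroup k) : AddSubgroup k where
  carrier := {y | y ∈ B ∧ φ ⁅x, y⁆ = 0}
  add_mem' := by
    rintro y z ⟨hy, hy'⟩ ⟨hz, hz'⟩
    exact ⟨add_mem hy hz, by rw [lie_add, map_add, hy', hz', add_zero]⟩
  zero_mem' := ⟨zero_mem _, by simp⟩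
  neg_mem' := by
    rintro y ⟨hy, hy'⟩
    exact ⟨neg_mem hy, by rw [lie_neg, map_neg, hy', neg_zero]⟩

end VST_aux

open VST_aux

theorem t_VST (hD : S_DUAL) : S_VST := by
  intro p q _ _ k _ _ hq φ m m' h hmm' hidx hhm hR0h hcard
  have hp : p.Prime := Fact.out
  have hle : radIn φ m' ≤ m' := fun x hx => hx.1
  have hm' : Nat.card m * p = Nat.card m' := by
    rw [← hidx]
    exact card_mul_relIndex hmm'
  by_cases hRm : radIn φ m' ≤ m
  · -- case (b)
    have hRR0 : radIn φ m' ≤ radIn φ m := fun x hx => ⟨hRm hx, fun y hy => hx.2 y (hmm' hy)⟩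
    have hsup : h ⊔ radIn φ m' = h := sup_eq_left.2 (hRR0.trans hR0h)
    rw [hsup, hcard]
    -- perp
    have hperp : ann φ m' m = radIn φ m := by
      ext x
      constructor
      · rintro ⟨hx, hx'⟩
        by_cases hxm : x ∈ m
        · exact ⟨hxm, hx'⟩
        · exfalso
          apply hxm
          apply hRm
          refine ⟨hx, ?_⟩
          have hS : orth φ x m' = m' := by
            refine prime_step hp (m := m) (fun y hy => ⟨hmm' hy, hx' y hy⟩) (fun y hy => hy.1)
              hidx ⟨x, ⟨hx, by simp⟩, hxm⟩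
          intro y hy
          rw [← hS] at hy
          exact hy.2
      · rintro ⟨hx, hx'⟩
        exact ⟨hmm' hx, hx'⟩
    have h1 := count hD q hq φ m' m (radIn φ m') hRm (fun x hx c hc => by
      rw [← lie_skew, map_neg, hc.2 x hx, neg_zero])
    have h2 := count hD q hq φ (radIn φ m) m' m hmm' (fun x hx c hc => hx.2 c hc)
    have h3 : ann φ (radIn φ m) m' = radIn φ m' := by
      ext x
      constructor
      · rintro ⟨hx, hx'⟩
        exact ⟨hmm' hx.1, hx'⟩
      · intro hx
        exact ⟨hRR0 hx, hx.2⟩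
    rw [hperp] at h1
    rw [h3] at h2
    apply le_antisymm
    · calc Nat.card m * Nat.card (radIn φ m) = Nat.card (radIn φ m) * Nat.card m := by ring
        _ ≤ Nat.card (radIn φ m') * Nat.card m' := h2
        _ = _ := by ring
    · calc Nat.card m' * Nat.card (radIn φ m') ≤ Nat.card (radIn φ m) * Nat.card m := h1
        _ = _ := by ring
  · -- case (a)
    obtain ⟨r, hr, hrm⟩ := SetLike.not_le_iff_exists.1 hRm
    have hR0R : radIn φ m ≤ radIn φ m' := by
      intro x hx
      refine ⟨hmm' hx.1, ?_⟩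
      have hS : orth φ x m' = m' := by
        refine prime_step hp (m := m) (fun y hy => ⟨hmm' hy, hx.2 y hy⟩) (fun y hy => hy.1)
          hidx ⟨r, ⟨hle hr, ?_⟩, hrm⟩
        rw [← lie_skew, map_neg, hr.2 x (hmm' hx.1), neg_zero]
      intro y hy
      rw [← hS] at hy
      exact hy.2
    have hinf : m ⊓ radIn φ m' = radIn φ m := by
      apply le_antisymm
      · rintro x ⟨hx, hx'⟩
        exact ⟨hx, fun y hy => hx'.2 y (hmm' hy)⟩
      · exact le_inf (fun x hx => hx.1) hR0R
    have hinf2 : h ⊓ radIn φ m' = radIn φ m := by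
      apply le_antisymm
      · rw [← hinf]
        exact inf_le_inf_right _ hhm
      · exact le_inf hR0h hR0R
    have hsup : m ⊔ radIn φ m' = m' := by
      refine prime_step hp le_sup_left (sup_le hmm' hle) hidx ⟨r, ?_, hrm⟩
      exact (le_sup_right : radIn φ m' ≤ m ⊔ radIn φ m') hr
    have hidx2 : (radIn φ m).relIndex (radIn φ m') = p := by
      rw [← hinf, AddSubgroup.inf_relIndex_right, ← AddSubgroup.relIndex_sup_left, hsup, hidx]
    have hidx3 : h.relIndex (h ⊔ radIn φ m' : AddSubgroup k) = p := by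
      rw [AddSubgroup.relIndex_sup_left, ← AddSubgroup.inf_relIndex_right, hinf2, hidx2]
    have h1 := card_mul_relIndex (le_sup_left : h ≤ h ⊔ radIn φ m')
    have h2 := card_mul_relIndex hR0R
    rw [hidx3] at h1
    rw [hidx2] at h2
    rw [← h1, ← h2, ← hm', mul_pow, hcard]
    ring

end H2.KL
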